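import Pool.Agent.LibBE33.E11

/-! Weyl's law with the remainder `O (y / Λ)` from the control of `Qf` at the grid points (the files
E9, E10, E11 of LibBE33 with an arbitrary `Λ j` in place of `K j`). -/

open MeasureTheory Set Filter Topology BGS
open scoped ContDiff unitInterval

namespace W36

open BE33

theorem WA_smooth {b : ℝ → ℝ} (hb : IsB b) {κ : ℕ → ℝ} (h : GWin.Lev κ) {A : ℝ} (hA : 0 < A)
    {l : ℝ} (hl : 0 < l) (h1 : ∃ C : ℝ, ∀ τ : ℝ, 1 ≤ τ → |Qf κ A (a0 b l) τ| ≤ C / √τ)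
    {Λ : ℕ → ℝ} (hΛ : Tendsto Λ atTop atTop) (hΛ2 : ∀ᶠ j : ℕ in atTop, Λ j ^ 4 ≤ 2 ^ j)
    (h2 : ∃ C : ℝ, ∀ᶠ j : ℕ in atTop, ∀ i : ℕ, (i : ℝ) ≤ 4 * 2 ^ j * Λ j ^ 3 →
      |Qf κ A (aL b l (Λ j)) (2 ^ j / 2 + i / Λ j ^ 3)| ≤ C * 2 ^ j / Λ j) :
    ∃ C : ℝ, 0 < C ∧ ∀ᶠ j : ℕ in atTop, ∀ τ : ℝ, 2 ^ j / 2 ≤ τ → τ ≤ 4 * 2 ^ j →
      |∑' k, WW b (Λ j * (κ k - τ)) - A * τ ^ 2 / (4 * Real.pi)| ≤ C * 2 ^ j / Λ j := by
  obtain ⟨C5, hC5, h5⟩ := E5_Qf hb h A hl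
  obtain ⟨C8, hC8, h8⟩ := E8_fixed hb h hA hl h1
  obtain ⟨C6, hC6, h6⟩ := E6_count hb h hA hl h1
  obtain ⟨B, hB, h6'⟩ := E6_sum h h6
  obtain ⟨C7, hC7, h7⟩ := E7_lip hb h (A := A) hl h6'
  obtain ⟨C2, h2⟩ := h2
  refine ⟨2 * |C2| + 16 * C7 + C5 + 2 * C8 + 1, by positivity, ?_⟩
  have hj1 : ∀ᶠ j : ℕ in atTop, 1 ≤ j := eventually_ge_atTop 1
  filter_upwards [h2, hΛ2, hΛ.eventually (eventually_ge_atTop (max 2 l)), hj1] with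
    j hj hL4 hjb hjn τ hτ hτ'
  have hj2 : (2 : ℝ) ≤ Λ j := (le_max_left _ _).trans hjb
  have hL : l ≤ Λ j := (le_max_right _ _).trans hjb
  have hj0 : (0 : ℝ) < Λ j := by linarith
  have h2j : (2 : ℝ) ≤ 2 ^ j := by
    calc (2 : ℝ) = 2 ^ 1 := by norm_num
      _ ≤ 2 ^ j := pow_le_pow_right₀ (by norm_num) hjn
  have hτ1 : 1 ≤ τ := by linarith
  have hj3 : (1 : ℝ) ≤ Λ j ^ 3 := one_le_pow₀ (by linarith)
  have hj3' : (0 : ℝ) < Λ j ^ 3 := by positivity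
  set i : ℕ := ⌊(τ - 2 ^ j / 2) * Λ j ^ 3⌋₊ with hi
  have hx0 : 0 ≤ (τ - 2 ^ j / 2) * Λ j ^ 3 := mul_nonneg (by linarith) hj3'.le
  have hi1 : (i : ℝ) ≤ (τ - 2 ^ j / 2) * Λ j ^ 3 := Nat.floor_le hx0
  have hi2 : (τ - 2 ^ j / 2) * Λ j ^ 3 < i + 1 := Nat.lt_floor_add_one _
  have hi3 : (i : ℝ) ≤ 4 * 2 ^ j * Λ j ^ 3 := by
    refine hi1.trans (mul_le_mul_of_nonneg_right ?_ hj3'.le)
    linarith
  have hg := hj i hi3
  set τ' : ℝ := 2 ^ j / 2 + i / Λ j ^ 3 with hτ'd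
  have hd1 : τ' ≤ τ := by
    have : (i : ℝ) / Λ j ^ 3 ≤ τ - 2 ^ j / 2 := by
      rw [div_le_iff₀ hj3']
      exact hi1
    linarith
  have hd2 : τ - τ' ≤ 1 / Λ j ^ 3 := by
    have : τ - 2 ^ j / 2 ≤ ((i : ℝ) + 1) / Λ j ^ 3 := by
      rw [le_div_iff₀ hj3']
      exact hi2.le
    rw [add_div] at this
    linarith
  have hd3 : |τ - τ'| ≤ 1 / Λ j ^ 3 := by
    rw [abs_of_nonneg (by linarith)]
    exact hd2
  have hd4 : |τ - τ'| ≤ 1 := hd3.trans (by rw [div_le_one hj3']; exact hj3)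
  have hτ'1 : 1 ≤ τ' := by
    have : (0 : ℝ) ≤ i / Λ j ^ 3 := by positivity
    linarith
  have hlip := h7 (Λ j) hL τ τ' hτ1 hτ'1 hd4
  have hpos : (0 : ℝ) < 2 ^ j / Λ j := by positivity
  have hQ : |Qf κ A (aL b l (Λ j)) τ| ≤ (|C2| + 8 * C7) * (2 ^ j / Λ j) := by
    have e1 : C7 * (1 + Λ j) * τ * |τ - τ'| ≤ 8 * C7 * (2 ^ j / Λ j) := by
      have e2 : C7 * (1 + Λ j) * τ * |τ - τ'| ≤
          C7 * (2 * Λ j) * (4 * 2 ^ j) * (1 / Λ j ^ 3) := by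
        gcongr
        linarith
      refine e2.trans ?_
      have e4 : C7 * (2 * Λ j) * (4 * 2 ^ j) * (1 / Λ j ^ 3) =
          8 * C7 * (2 ^ j / Λ j) * (1 / Λ j) := by
        field_simp
        ring
      rw [e4]
      have e5 : 1 / Λ j ≤ 1 := by
        rw [div_le_one hj0]
        linarith
      exact mul_le_of_le_one_right (by positivity) e5
    have e5 : |Qf κ A (aL b l (Λ j)) τ| ≤ |Qf κ A (aL b l (Λ j)) τ'| +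
        |Qf κ A (aL b l (Λ j)) τ - Qf κ A (aL b l (Λ j)) τ'| := by
      have := abs_add_le (Qf κ A (aL b l (Λ j)) τ') (Qf κ A (aL b l (Λ j)) τ -
        Qf κ A (aL b l (Λ j)) τ')
      rwa [add_sub_cancel] at this
    have e6 : C2 * 2 ^ j / Λ j ≤ |C2| * (2 ^ j / Λ j) := by
      rw [mul_div_assoc]
      exact mul_le_mul_of_nonneg_right (le_abs_self _) hpos.le
    have e7 : (|C2| + 8 * C7) * (2 ^ j / Λ j) = |C2| * (2 ^ j / Λ j) + 8 * C7 * (2 ^ j / Λ j) := by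
      ring
    rw [e7]
    linarith
  have hc1 := h5 (Λ j) hL τ hτ1
  have hc2 := h8 τ hτ1
  have hs0 : (1 : ℝ) ≤ (√2 : ℝ) ^ j := one_le_pow₀ (by
    rw [Real.one_le_sqrt]
    norm_num)
  have hs2 : ((√2 : ℝ) ^ j) ^ 2 = 2 ^ j := by
    rw [← pow_mul, mul_comm j 2, pow_mul, Real.sq_sqrt (by norm_num)]
  have hsτ : √τ ≤ 2 * (√2 : ℝ) ^ j := by
    rw [Real.sqrt_le_left (by positivity), mul_pow, hs2]
    linarith
  have hend : C5 + C8 * √τ ≤ (C5 + 2 * C8) * (2 ^ j / Λ j) := by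
    have e1 : C5 + C8 * √τ ≤ (C5 + 2 * C8) * (√2 : ℝ) ^ j := by
      have e2 : C8 * √τ ≤ C8 * (2 * (√2 : ℝ) ^ j) := mul_le_mul_of_nonneg_left hsτ hC8.le
      have e3 : C5 * 1 ≤ C5 * (√2 : ℝ) ^ j := mul_le_mul_of_nonneg_left hs0 hC5.le
      linarith
    refine e1.trans (mul_le_mul_of_nonneg_left ?_ (by positivity))
    rw [le_div_iff₀ hj0]
    have e8 : Λ j ≤ (√2 : ℝ) ^ j := by
      have e9 : (Λ j ^ 2) ^ 2 ≤ ((√2 : ℝ) ^ j) ^ 2 := by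
        rw [hs2, ← pow_mul]
        exact hL4
      have e10 : Λ j ^ 2 ≤ (√2 : ℝ) ^ j := by
        exact le_of_sq_le_sq e9 (by positivity)
      nlinarith
    calc (√2 : ℝ) ^ j * Λ j ≤ (√2 : ℝ) ^ j * (√2 : ℝ) ^ j := by gcongr
      _ = 2 ^ j := by rw [← hs2]; ring
  have hfin : |∑' k, WW b (Λ j * (κ k - τ)) - A * τ ^ 2 / (4 * Real.pi)| ≤
      2 * |Qf κ A (aL b l (Λ j)) τ| + C5 + C8 * √τ := by
    have e1 : ∑' k, WW b (Λ j * (κ k - τ)) - A * τ ^ 2 / (4 * Real.pi) =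
        2 * Qf κ A (aL b l (Λ j)) τ - (2 * Qf κ A (aL b l (Λ j)) τ -
          (∑' k, WW b (Λ j * (κ k - τ)) - ∑' k, WW b (l * (κ k - τ)))) +
        (∑' k, WW b (l * (κ k - τ)) - A * τ ^ 2 / (4 * Real.pi)) := by ring
    rw [e1]
    refine (abs_add_le _ _).trans ?_
    refine (add_le_add (abs_sub _ _) le_rfl).trans ?_
    rw [abs_mul, abs_of_pos (by norm_num : (0 : ℝ) < 2)]
    linarith
  have e12 : (2 * |C2| + 16 * C7 + C5 + 2 * C8 + 1) * 2 ^ j / Λ j =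
      (2 * |C2| + 16 * C7 + C5 + 2 * C8 + 1) * (2 ^ j / Λ j) := mul_div_assoc _ _ _
  have e11 : (2 * |C2| + 16 * C7 + C5 + 2 * C8 + 1) * (2 ^ j / Λ j) =
      2 * ((|C2| + 8 * C7) * (2 ^ j / Λ j)) + (C5 + 2 * C8) * (2 ^ j / Λ j) + 2 ^ j / Λ j := by ring
  rw [e12, e11]
  linarith

end W36
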