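import Mathlib

/-! Borel-Cantelli for the grid points of the dyadic blocks. -/

open MeasureTheory Set Filter Topology

namespace W36

private lemma WC_markov {Ω : Type} [MeasurableSpace Ω] (μ : Measure Ω) {f : Ω → ℝ}
    (hf : Measurable f) {a b : ℝ} (ha : 0 < a)
    (h : ∫⁻ ω, ENNReal.ofReal (f ω ^ 2) ∂μ ≤ ENNReal.ofReal b) :
    μ {ω | a < |f ω|} ≤ ENNReal.ofReal (b / a ^ 2) := by
  have ha2 : 0 < a ^ 2 := by positivity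
  have h1 : {ω | a < |f ω|} ⊆ {ω | ENNReal.ofReal (a ^ 2) ≤ ENNReal.ofReal (f ω ^ 2)} := by
    intro ω hω
    have hω' : a < |f ω| := hω
    show ENNReal.ofReal (a ^ 2) ≤ ENNReal.ofReal (f ω ^ 2)
    apply ENNReal.ofReal_le_ofReal
    rw [← sq_abs (f ω)]
    exact pow_le_pow_left₀ ha.le hω'.le 2
  have h2 := meas_ge_le_lintegral_div (μ := μ) (f := fun ω => ENNReal.ofReal (f ω ^ 2))
    (hf.pow_const 2).ennreal_ofReal.aemeasurable (ε := ENNReal.ofReal (a ^ 2))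
    (by simpa using (ne_of_gt ha)) ENNReal.ofReal_ne_top
  calc μ {ω | a < |f ω|} ≤ μ {ω | ENNReal.ofReal (a ^ 2) ≤ ENNReal.ofReal (f ω ^ 2)} :=
        measure_mono h1
    _ ≤ (∫⁻ ω, ENNReal.ofReal (f ω ^ 2) ∂μ) / ENNReal.ofReal (a ^ 2) := h2
    _ ≤ ENNReal.ofReal b / ENNReal.ofReal (a ^ 2) := ENNReal.div_le_div_right h _
    _ = ENNReal.ofReal (b / a ^ 2) := (ENNReal.ofReal_div_of_pos ha2).symm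

private lemma WC_num (j : ℕ) {L : ℝ} (h1 : 1 ≤ L) (h2 : L ^ 16 ≤ 2 ^ j) :
    ((⌊4 * 2 ^ j * L ^ 3⌋₊ + 1 : ℕ) : ℝ) * ((2 : ℝ) ^ ((j : ℝ) / 2) / (2 ^ j / L) ^ 2)
      ≤ 5 * ((2 : ℝ) ^ (-(3 / 16) : ℝ)) ^ j := by
  have hL : 0 < L := by linarith
  have h2j : (0 : ℝ) < 2 ^ j := by positivity
  have h2j1 : (1 : ℝ) ≤ 2 ^ j := one_le_pow₀ (by norm_num)
  have hL3 : 1 ≤ L ^ 3 := one_le_pow₀ h1
  have hfl : ((⌊4 * 2 ^ j * L ^ 3⌋₊ + 1 : ℕ) : ℝ) ≤ 5 * 2 ^ j * L ^ 3 := by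
    push_cast
    have := Nat.floor_le (show 0 ≤ 4 * 2 ^ j * L ^ 3 by positivity)
    nlinarith [mul_le_mul h2j1 hL3 (by norm_num) h2j.le]
  have hpos : 0 ≤ (2 : ℝ) ^ ((j : ℝ) / 2) / (2 ^ j / L) ^ 2 := by positivity
  have hL5 : L ^ 5 ≤ (2 : ℝ) ^ (5 * (j : ℝ) / 16) := by
    have e1 : L ^ 5 = (L ^ 16) ^ ((5 : ℝ) / 16) := by
      rw [← Real.rpow_natCast L 16, ← Real.rpow_mul hL.le, ← Real.rpow_natCast L 5]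
      norm_num
    have e2 : (2 : ℝ) ^ (5 * (j : ℝ) / 16) = ((2 : ℝ) ^ j) ^ ((5 : ℝ) / 16) := by
      rw [← Real.rpow_natCast 2 j, ← Real.rpow_mul (by norm_num)]
      congr 1
      ring
    rw [e1, e2]
    exact Real.rpow_le_rpow (by positivity) h2 (by norm_num)
  have e3 : 5 * 2 ^ j * L ^ 3 * ((2 : ℝ) ^ ((j : ℝ) / 2) / (2 ^ j / L) ^ 2)
      = 5 * ((2 : ℝ) ^ ((j : ℝ) / 2) / 2 ^ j) * L ^ 5 := by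
    field_simp
  have e4 : (2 : ℝ) ^ ((j : ℝ) / 2) / 2 ^ j = (2 : ℝ) ^ (-(j : ℝ) / 2) := by
    rw [← Real.rpow_natCast 2 j, ← Real.rpow_sub (by norm_num)]
    congr 1
    ring
  calc ((⌊4 * 2 ^ j * L ^ 3⌋₊ + 1 : ℕ) : ℝ) * ((2 : ℝ) ^ ((j : ℝ) / 2) / (2 ^ j / L) ^ 2)
      ≤ 5 * 2 ^ j * L ^ 3 * ((2 : ℝ) ^ ((j : ℝ) / 2) / (2 ^ j / L) ^ 2) :=
        mul_le_mul_of_nonneg_right hfl hpos
    _ = 5 * (2 : ℝ) ^ (-(j : ℝ) / 2) * L ^ 5 := by rw [e3, e4]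
    _ ≤ 5 * (2 : ℝ) ^ (-(j : ℝ) / 2) * (2 : ℝ) ^ (5 * (j : ℝ) / 16) :=
        mul_le_mul_of_nonneg_left hL5 (by positivity)
    _ = 5 * ((2 : ℝ) ^ (-(3 / 16) : ℝ)) ^ j := by
        rw [mul_assoc, ← Real.rpow_add (by norm_num), ← Real.rpow_natCast _ j,
          ← Real.rpow_mul (by norm_num)]
        congr 2
        ring

private lemma WC_bad {Ω : Type} [MeasurableSpace Ω] (μ : Measure Ω)
    {G : ℝ → Ω → ℝ} {L : ℝ} (j : ℕ) (h1 : 1 ≤ L) (h2 : L ^ 16 ≤ 2 ^ j)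
    (hG : ∀ τ : ℝ, 2 ^ j / 2 ≤ τ → τ ≤ 5 * 2 ^ j → Measurable (G τ) ∧
      ∫⁻ ω, ENNReal.ofReal (G τ ω ^ 2) ∂μ ≤ ENNReal.ofReal ((2 : ℝ) ^ ((j : ℝ) / 2))) :
    μ {ω | ∃ i : ℕ, (i : ℝ) ≤ 4 * 2 ^ j * L ^ 3 ∧ 2 ^ j / L < |G (2 ^ j / 2 + i / L ^ 3) ω|}
      ≤ ENNReal.ofReal (5 * ((2 : ℝ) ^ (-(3 / 16) : ℝ)) ^ j) := by
  have hL : 0 < L := by linarith
  have h2j : (0 : ℝ) < 2 ^ j := by positivity
  have hL3 : 0 < L ^ 3 := by positivity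
  have hsub : {ω | ∃ i : ℕ, (i : ℝ) ≤ 4 * 2 ^ j * L ^ 3 ∧
        2 ^ j / L < |G (2 ^ j / 2 + i / L ^ 3) ω|}
      ⊆ ⋃ i ∈ Finset.range (⌊4 * 2 ^ j * L ^ 3⌋₊ + 1),
        {ω | 2 ^ j / L < |G (2 ^ j / 2 + i / L ^ 3) ω|} := by
    rintro ω ⟨i, hi, hω⟩
    simp only [Set.mem_iUnion]
    exact ⟨i, Finset.mem_range.2 (Nat.lt_succ_of_le (Nat.le_floor hi)), hω⟩
  have hone : ∀ i ∈ Finset.range (⌊4 * 2 ^ j * L ^ 3⌋₊ + 1),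
      μ {ω | 2 ^ j / L < |G (2 ^ j / 2 + i / L ^ 3) ω|}
        ≤ ENNReal.ofReal ((2 : ℝ) ^ ((j : ℝ) / 2) / (2 ^ j / L) ^ 2) := by
    intro i hi
    have hi' : (i : ℝ) ≤ 4 * 2 ^ j * L ^ 3 := by
      have h3 : i ≤ ⌊4 * 2 ^ j * L ^ 3⌋₊ := Nat.le_of_lt_succ (Finset.mem_range.1 hi)
      exact (Nat.le_floor_iff (by positivity)).1 h3
    have hq : (i : ℝ) / L ^ 3 ≤ 4 * 2 ^ j := by
      rw [div_le_iff₀ hL3]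
      exact hi'
    have hq0 : 0 ≤ (i : ℝ) / L ^ 3 := by positivity
    obtain ⟨hm, hint⟩ := hG (2 ^ j / 2 + i / L ^ 3) (by linarith) (by linarith)
    exact WC_markov μ hm (by positivity) hint
  calc μ {ω | ∃ i : ℕ, (i : ℝ) ≤ 4 * 2 ^ j * L ^ 3 ∧
        2 ^ j / L < |G (2 ^ j / 2 + i / L ^ 3) ω|}
      ≤ μ (⋃ i ∈ Finset.range (⌊4 * 2 ^ j * L ^ 3⌋₊ + 1),
        {ω | 2 ^ j / L < |G (2 ^ j / 2 + i / L ^ 3) ω|}) := measure_mono hsub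
    _ ≤ ∑ i ∈ Finset.range (⌊4 * 2 ^ j * L ^ 3⌋₊ + 1),
        μ {ω | 2 ^ j / L < |G (2 ^ j / 2 + i / L ^ 3) ω|} := measure_biUnion_finset_le _ _
    _ ≤ ∑ _i ∈ Finset.range (⌊4 * 2 ^ j * L ^ 3⌋₊ + 1),
        ENNReal.ofReal ((2 : ℝ) ^ ((j : ℝ) / 2) / (2 ^ j / L) ^ 2) := Finset.sum_le_sum hone
    _ = ENNReal.ofReal (((⌊4 * 2 ^ j * L ^ 3⌋₊ + 1 : ℕ) : ℝ) *
        ((2 : ℝ) ^ ((j : ℝ) / 2) / (2 ^ j / L) ^ 2)) := by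
        rw [Finset.sum_const, Finset.card_range, nsmul_eq_mul,
          ENNReal.ofReal_mul (by positivity), ENNReal.ofReal_natCast]
    _ ≤ ENNReal.ofReal (5 * ((2 : ℝ) ^ (-(3 / 16) : ℝ)) ^ j) :=
        ENNReal.ofReal_le_ofReal (WC_num j h1 h2)

theorem WC_grid {Ω : Type} [MeasurableSpace Ω] (μ : Measure Ω) [IsProbabilityMeasure μ]
    {F : ℕ → ℝ → Ω → ℝ} {Λ : ℕ → ℝ} (hΛ1 : ∀ᶠ j : ℕ in atTop, 1 ≤ Λ j)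
    (hΛ2 : ∀ᶠ j : ℕ in atTop, Λ j ^ 16 ≤ 2 ^ j)
    (hF : ∀ᶠ j : ℕ in atTop, ∀ τ : ℝ, 2 ^ j / 2 ≤ τ → τ ≤ 5 * 2 ^ j → Measurable (F j τ) ∧
      ∫⁻ ω, ENNReal.ofReal (F j τ ω ^ 2) ∂μ ≤ ENNReal.ofReal ((2 : ℝ) ^ ((j : ℝ) / 2))) :
    ∀ᵐ ω ∂μ, ∀ᶠ j : ℕ in atTop, ∀ i : ℕ, (i : ℝ) ≤ 4 * 2 ^ j * Λ j ^ 3 →
      |F j (2 ^ j / 2 + i / Λ j ^ 3) ω| ≤ 2 ^ j / Λ j := by
  obtain ⟨N, hN⟩ := eventually_atTop.1 (hΛ1.and (hΛ2.and hF))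
  let s : ℕ → Set Ω := fun j => if N ≤ j then {ω | ∃ i : ℕ, (i : ℝ) ≤ 4 * 2 ^ j * Λ j ^ 3 ∧
    2 ^ j / Λ j < |F j (2 ^ j / 2 + i / Λ j ^ 3) ω|} else ∅
  have hs : ∀ j, μ (s j) ≤ ENNReal.ofReal (5 * ((2 : ℝ) ^ (-(3 / 16) : ℝ)) ^ j) := by
    intro j
    by_cases hj : N ≤ j
    · simp only [s, hj, if_true]
      obtain ⟨a1, a2, a3⟩ := hN j hj
      exact WC_bad μ j a1 a2 a3
    · simp [s, hj]
  have hsum : ∑' j, μ (s j) ≠ ⊤ := by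
    refine ne_top_of_le_ne_top ?_ (ENNReal.tsum_le_tsum hs)
    have hsm : Summable (fun j : ℕ => 5 * ((2 : ℝ) ^ (-(3 / 16) : ℝ)) ^ j) :=
      (summable_geometric_of_lt_one (by positivity)
        (Real.rpow_lt_one_of_one_lt_of_neg (by norm_num) (by norm_num))).mul_left 5
    exact hsm.tsum_ofReal_ne_top
  filter_upwards [ae_eventually_notMem hsum] with ω hω
  filter_upwards [hω, eventually_ge_atTop N] with j hj hjN i hi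
  by_contra hcon
  push Not at hcon
  refine hj ?_
  simp only [s, hjN, if_true]
  exact ⟨i, hi, hcon⟩

end W36
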