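import Mathlib

/-! The final form of the remainder: from the dyadic blocks to `y ^ (1 - c / log log y)`. -/

open Set Filter Topology

namespace W36

private noncomputable def WD_S (y : ℝ) : ℝ := Real.log y / Real.log (Real.log y)

private theorem WD_S_tendsto : Tendsto WD_S atTop atTop := by
  have h1 : Tendsto (fun y : ℝ => (Real.log y) ^ (1 / 2 : ℝ) / 2) atTop atTop := by
    apply Tendsto.atTop_div_const (by norm_num)
    exact (tendsto_rpow_atTop (by norm_num)).comp Real.tendsto_log_atTop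
  refine tendsto_atTop_mono' atTop ?_ h1
  filter_upwards [Real.tendsto_log_atTop.eventually_ge_atTop 4] with y hy
  unfold WD_S
  have hL0 : 0 < Real.log y := by linarith
  have hLL : 0 < Real.log (Real.log y) := Real.log_pos (by linarith)
  have h2 := Real.log_le_rpow_div hL0.le (ε := 1 / 2) (by norm_num)
  have h3 : (Real.log y) ^ (1 / 2 : ℝ) * (Real.log y) ^ (1 / 2 : ℝ) = Real.log y := by
    rw [← Real.rpow_add hL0]
    norm_num
  have h4 : 0 ≤ (Real.log y) ^ (1 / 2 : ℝ) := Real.rpow_nonneg hL0.le _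
  rw [le_div_iff₀ hLL]
  calc (Real.log y) ^ (1 / 2 : ℝ) / 2 * Real.log (Real.log y)
      ≤ (Real.log y) ^ (1 / 2 : ℝ) / 2 * ((Real.log y) ^ (1 / 2 : ℝ) / (1 / 2)) :=
        mul_le_mul_of_nonneg_left h2 (by positivity)
    _ = (Real.log y) ^ (1 / 2 : ℝ) * (Real.log y) ^ (1 / 2 : ℝ) := by ring
    _ = Real.log y := h3

private theorem WD_mono {y y' : ℝ} (hy0 : 0 < y) (hy : 4 ≤ Real.log y) (h : y ≤ y') :
    WD_S y ≤ WD_S y' := by
  have hL : Real.log y ≤ Real.log y' := Real.log_le_log hy0 h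
  have he : Real.exp 1 ≤ 4 := by
    have := Real.exp_one_lt_d9
    linarith
  have h1 := Real.log_div_self_antitoneOn (show Real.log y ∈ {x | Real.exp 1 ≤ x} by
      show Real.exp 1 ≤ Real.log y
      linarith) (show Real.log y' ∈ {x | Real.exp 1 ≤ x} by
      show Real.exp 1 ≤ Real.log y'
      linarith) hL
  simp only at h1
  have hL0 : 0 < Real.log y := by linarith
  have hL0' : 0 < Real.log y' := by linarith
  rw [div_le_div_iff₀ hL0' hL0] at h1
  have hLL : 0 < Real.log (Real.log y) := Real.log_pos (by linarith)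
  have hLL' : 0 < Real.log (Real.log y') := Real.log_pos (by linarith)
  unfold WD_S
  rw [div_le_div_iff₀ hLL hLL']
  linarith

private theorem WD_j {y : ℝ} {j : ℕ} (hy0 : 0 < y) (hy : 4 ≤ Real.log y) (h1 : 2 ^ j ≤ y)
    (h2 : y ≤ 2 * 2 ^ j) : 1 / 2 * WD_S y ≤ j / Real.log (j + 2) := by
  have l1 := Real.log_two_lt_d9
  have l2 := Real.log_two_gt_d9
  have hj0 : (0 : ℝ) ≤ j := Nat.cast_nonneg j
  have e1 : Real.log y ≤ ((j : ℝ) + 1) * Real.log 2 := by
    have e7 : Real.log y ≤ Real.log (2 ^ (j + 1)) := by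
      apply Real.log_le_log hy0
      calc y ≤ 2 * 2 ^ j := h2
        _ = 2 ^ (j + 1) := by ring
    rw [Real.log_pow] at e7
    push_cast at e7
    exact e7
  have e2 : (j : ℝ) * Real.log 2 ≤ Real.log y := by
    have e7 : Real.log (2 ^ j) ≤ Real.log y := Real.log_le_log (by positivity) h1
    rwa [Real.log_pow] at e7
  have e3 : Real.log y ≤ ((j : ℝ) + 1) * 0.6932 := by
    refine e1.trans (mul_le_mul_of_nonneg_left ?_ (by linarith))
    linarith
  have e4 : (j : ℝ) * 0.6931 ≤ Real.log y := by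
    refine (mul_le_mul_of_nonneg_left ?_ hj0).trans e2
    linarith
  have e5 : Real.log y ≤ j := by
    norm_num at e3 e4 ⊢
    linarith
  have e6 : (j : ℝ) + 2 ≤ Real.log y ^ 2 := by
    norm_num at e4
    nlinarith
  have hL0 : 0 < Real.log y := by linarith
  have hLL : 0 < Real.log (Real.log y) := Real.log_pos (by linarith)
  have e8 : Real.log (j + 2) ≤ 2 * Real.log (Real.log y) := by
    have e9 : Real.log ((j : ℝ) + 2) ≤ Real.log (Real.log y ^ 2) :=
      Real.log_le_log (by positivity) e6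
    rw [Real.log_pow] at e9
    push_cast at e9
    exact e9
  have e10 : 0 < Real.log ((j : ℝ) + 2) := Real.log_pos (by linarith)
  unfold WD_S
  calc 1 / 2 * (Real.log y / Real.log (Real.log y))
      = Real.log y / (2 * Real.log (Real.log y)) := by
        field_simp
    _ ≤ j / Real.log (j + 2) := by
        apply div_le_div₀ hj0 e5 e10 e8

private theorem WD_pow {y : ℝ} (hy : 0 < y) (c : ℝ) :
    y ^ (1 - c / Real.log (Real.log y)) = y * Real.exp (-(c * WD_S y)) ∧
      y ^ (-c / Real.log (Real.log y)) = Real.exp (-(c * WD_S y)) := by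
  have h1 : y ^ (-c / Real.log (Real.log y)) = Real.exp (-(c * WD_S y)) := by
    rw [Real.rpow_def_of_pos hy]
    congr 1
    unfold WD_S
    ring
  refine ⟨?_, h1⟩
  rw [← h1, sub_eq_add_neg, Real.rpow_add hy, Real.rpow_one, neg_div]

theorem WD_fin {N : ℝ → ℝ} {Λ : ℕ → ℝ} {κ C : ℝ} (hκ : 0 < κ) (hC : 0 < C)
    (hΛ : ∀ᶠ j : ℕ in atTop, Real.exp (κ * j / Real.log (j + 2)) ≤ Λ j)
    (h : ∀ᶠ j : ℕ in atTop, ∀ τ : ℝ, 2 ^ j ≤ τ → τ ≤ 2 * 2 ^ j →
      |N τ - τ ^ 2 / (4 * Real.pi)| ≤ C * 2 ^ j / Λ j) :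
    ∃ c : ℝ, 0 < c ∧
      Tendsto (fun y : ℝ => (N y - y ^ 2 / (4 * Real.pi)) /
        y ^ (1 - c / Real.log (Real.log y))) atTop (𝓝 0) ∧
      Tendsto (fun y : ℝ => (N (y + y ^ (-c / Real.log (Real.log y))) - N y) /
        y ^ (1 - c / Real.log (Real.log y))) atTop (𝓝 (1 / (2 * Real.pi))) := by
  obtain ⟨E, hEd⟩ : ∃ E : ℝ → ℝ, ∀ y, E y = N y - y ^ 2 / (4 * Real.pi) := ⟨_, fun _ => rfl⟩
  have hpi := Real.pi_pos
  -- the bound for the remainder
  have hE : ∃ Y : ℝ, 1 ≤ Y ∧ ∀ y, Y ≤ y → 4 ≤ Real.log y ∧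
      |E y| ≤ C * y * Real.exp (-(κ / 2 * WD_S y)) := by
    obtain ⟨j₁, hj₁⟩ := eventually_atTop.1 (hΛ.and h)
    refine ⟨max (2 ^ j₁) (Real.exp 4), le_max_of_le_left (one_le_pow₀ (by norm_num)), ?_⟩
    intro y hy
    have hy1 : (2 : ℝ) ^ j₁ ≤ y := (le_max_left _ _).trans hy
    have hy2 : Real.exp 4 ≤ y := (le_max_right _ _).trans hy
    have hy0 : 0 < y := lt_of_lt_of_le (Real.exp_pos _) hy2
    have hL : 4 ≤ Real.log y := (Real.le_log_iff_exp_le hy0).2 hy2
    refine ⟨hL, ?_⟩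
    obtain ⟨j, hj⟩ : ∃ j : ℕ, j = Nat.log 2 ⌊y⌋₊ := ⟨_, rfl⟩
    have hfl : 2 ^ j₁ ≤ ⌊y⌋₊ := Nat.le_floor (by exact_mod_cast hy1)
    have hfl0 : ⌊y⌋₊ ≠ 0 := by
      have : 0 < 2 ^ j₁ := by positivity
      omega
    have hjj : j₁ ≤ j := by rw [hj]; exact Nat.le_log_of_pow_le (by norm_num) hfl
    have hlow : (2 : ℝ) ^ j ≤ y := by
      have h3 : 2 ^ j ≤ ⌊y⌋₊ := by rw [hj]; exact Nat.pow_log_le_self 2 hfl0
      calc (2 : ℝ) ^ j ≤ (⌊y⌋₊ : ℝ) := by exact_mod_cast h3
        _ ≤ y := Nat.floor_le hy0.le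
    have hup : y ≤ 2 * 2 ^ j := by
      have h3 : ⌊y⌋₊ < 2 ^ (j + 1) := by rw [hj]; exact Nat.lt_pow_succ_log_self (by norm_num) _
      have h4 : y < (⌊y⌋₊ : ℝ) + 1 := Nat.lt_floor_add_one y
      have h5 : (⌊y⌋₊ : ℝ) + 1 ≤ 2 ^ (j + 1) := by exact_mod_cast h3
      calc y ≤ 2 ^ (j + 1) := by linarith
        _ = 2 * 2 ^ j := by ring
    obtain ⟨hΛj, hNj⟩ := hj₁ j hjj
    have h6 := hNj y hlow hup
    rw [← hEd] at h6
    have h7 := WD_j hy0 hL hlow hup
    have h8 : Real.exp (κ / 2 * WD_S y) ≤ Λ j := by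
      refine le_trans (Real.exp_le_exp.2 ?_) hΛj
      calc κ / 2 * WD_S y = κ * (1 / 2 * WD_S y) := by ring
        _ ≤ κ * (j / Real.log (j + 2)) := mul_le_mul_of_nonneg_left h7 hκ.le
        _ = κ * j / Real.log (j + 2) := by ring
    have h9 : 0 < Real.exp (κ / 2 * WD_S y) := Real.exp_pos _
    refine h6.trans ?_
    rw [Real.exp_neg, ← div_eq_mul_inv]
    exact div_le_div₀ (by positivity) (mul_le_mul_of_nonneg_left hlow hC.le) h9 h8
  obtain ⟨Y, hY1, hY⟩ := hE
  obtain ⟨c, hc⟩ : ∃ c : ℝ, c = κ / 8 := ⟨_, rfl⟩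
  have hc0 : 0 < c := by rw [hc]; positivity
  have hd : 0 < κ / 2 - c := by rw [hc]; linarith
  have hexp : Tendsto (fun y : ℝ => Real.exp (-((κ / 2 - c) * WD_S y))) atTop (𝓝 0) := by
    apply Real.tendsto_exp_atBot.comp
    apply tendsto_neg_atTop_atBot.comp
    exact WD_S_tendsto.const_mul_atTop hd
  refine ⟨c, hc0, ?_, ?_⟩
  · have hlim : Tendsto (fun y : ℝ => C * Real.exp (-((κ / 2 - c) * WD_S y))) atTop (𝓝 0) := by
      simpa using hexp.const_mul C
    refine squeeze_zero_norm' ?_ hlim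
    filter_upwards [eventually_ge_atTop Y] with y hy
    have hy0 : 0 < y := by linarith
    obtain ⟨-, h2⟩ := hY y hy
    rw [(WD_pow hy0 c).1, ← hEd, norm_div, Real.norm_eq_abs, Real.norm_of_nonneg (by positivity),
      div_le_iff₀ (by positivity)]
    refine h2.trans (le_of_eq ?_)
    have h3 : Real.exp (-(κ / 2 * WD_S y)) =
        Real.exp (-((κ / 2 - c) * WD_S y)) * Real.exp (-(c * WD_S y)) := by
      rw [← Real.exp_add]
      congr 1
      ring
    rw [h3]
    ring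
  · have hlim : Tendsto (fun y : ℝ => y⁻¹ + 3 * C * Real.exp (-((κ / 2 - c) * WD_S y))) atTop
        (𝓝 0) := by
      simpa using tendsto_inv_atTop_zero.add (hexp.const_mul (3 * C))
    rw [tendsto_iff_norm_sub_tendsto_zero]
    refine squeeze_zero' (Eventually.of_forall fun _ => norm_nonneg _) ?_ hlim
    filter_upwards [eventually_ge_atTop Y] with y hy
    have hy0 : 0 < y := by linarith
    have hy1 : 1 ≤ y := by linarith
    obtain ⟨hL, h2⟩ := hY y hy
    rw [(WD_pow hy0 c).1, (WD_pow hy0 c).2]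
    obtain ⟨w, hw⟩ : ∃ w : ℝ, w = Real.exp (-(c * WD_S y)) := ⟨_, rfl⟩
    rw [← hw]
    have hw0 : 0 < w := by rw [hw]; exact Real.exp_pos _
    have hS0 : 0 ≤ WD_S y := by
      unfold WD_S
      have : 0 < Real.log (Real.log y) := Real.log_pos (by linarith)
      positivity
    have hw1 : w ≤ 1 := by
      rw [hw, Real.exp_le_one_iff]
      have : 0 ≤ c * WD_S y := by positivity
      linarith
    have h3 : Real.exp (-(κ / 2 * WD_S y)) = Real.exp (-((κ / 2 - c) * WD_S y)) * w := by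
      rw [hw, ← Real.exp_add]
      congr 1
      ring
    obtain ⟨e, he⟩ : ∃ e : ℝ, e = Real.exp (-((κ / 2 - c) * WD_S y)) := ⟨_, rfl⟩
    have he0 : 0 < e := by rw [he]; exact Real.exp_pos _
    rw [← he] at h3 ⊢
    obtain ⟨-, h4⟩ := hY (y + w) (by linarith)
    have h5 : Real.exp (-(κ / 2 * WD_S (y + w))) ≤ e * w := by
      rw [← h3]
      apply Real.exp_le_exp.2
      have h6 := WD_mono hy0 hL (show y ≤ y + w by linarith)
      have : κ / 2 * WD_S y ≤ κ / 2 * WD_S (y + w) := mul_le_mul_of_nonneg_left h6 (by positivity)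
      linarith
    rw [h3] at h2
    have h7 : |E (y + w)| ≤ 2 * C * y * (e * w) := by
      refine h4.trans ?_
      calc C * (y + w) * Real.exp (-(κ / 2 * WD_S (y + w)))
          ≤ C * (2 * y) * (e * w) := by
            apply mul_le_mul _ h5 (Real.exp_pos _).le (by positivity)
            apply mul_le_mul_of_nonneg_left _ hC.le
            linarith
        _ = 2 * C * y * (e * w) := by ring
    have h8 : (N (y + w) - N y) / (y * w) - 1 / (2 * Real.pi) =
        w / (4 * Real.pi * y) + (E (y + w) - E y) / (y * w) := by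
      rw [hEd, hEd]
      field_simp
      ring
    rw [h8, Real.norm_eq_abs]
    refine (abs_add_le _ _).trans ?_
    have h9 : |w / (4 * Real.pi * y)| ≤ y⁻¹ := by
      rw [abs_of_pos (by positivity), div_le_iff₀ (by positivity)]
      have hpi3 := Real.pi_gt_three
      have h10 : y⁻¹ * (4 * Real.pi * y) = 4 * Real.pi := by
        field_simp
      rw [h10]
      linarith
    have h11 : |(E (y + w) - E y) / (y * w)| ≤ 3 * C * e := by
      rw [abs_div, abs_of_pos (show 0 < y * w by positivity), div_le_iff₀ (by positivity)]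
      have h12 : |E (y + w) - E y| ≤ |E (y + w)| + |E y| := abs_sub _ _
      refine h12.trans ((add_le_add h7 h2).trans (le_of_eq ?_))
      ring
    exact add_le_add h9 h11

end W36
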